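import Pool.Agent.H47.SQ.Targets4
import Pool.Agent.H32.SR.XNB

/-!
Row ZNB of ppz_modules (helper23): the expected number of the bad solutions is small.
-/

set_option autoImplicit false

namespace Pool.Agent.H23.SR

open Finset Pool.Agent.H97.RK Pool.Agent.H41.SS Pool.Agent.H47.SR
open Pool.Agent.H47.SQ (sav)
open Pool.Agent.H32.SR (bl_exp' ctx ch_exp pw_exp)

theorem znb_ch (n a : ℕ) : (n.choose a : ℝ) ≤ bl n a := by
  unfold bl
  have h : n.choose a ≤ ∑ i ∈ range (a + 1), n.choose i :=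
    Finset.single_le_sum (f := fun i => n.choose i) (fun _ _ => Nat.zero_le _)
      (mem_range.2 (Nat.lt_succ_self a))
  exact_mod_cast h

theorem pf_ZNB : T_ZNB := by
  intro ε G hε hε1 hG
  obtain ⟨K, hK⟩ : ∃ K : ℕ, K = ⌈100 * ((G : ℝ) + 1) / ε⌉₊ + 300 := ⟨_, rfl⟩
  refine ⟨1, K, one_pos, ?_⟩
  intro k n m t d u hk hn hkm _ ht1 ht2 hd1 hd3 hu hd2
  have hG00 : (0 : ℝ) ≤ G := Nat.cast_nonneg G
  have hG46 : (2 : ℝ) ^ 46 ≤ G := hG.trans (mul_le_of_le_one_left hG00 hε1)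
  have hG7 : (7 : ℝ) ≤ G := le_trans (by norm_num) hG46
  have hG0 : (0 : ℝ) < G := by linarith
  have hK300 : 300 ≤ K := by omega
  have hKe : 100 * ((G : ℝ) + 1) / ε ≤ K := by
    rw [hK]; push_cast
    have := Nat.le_ceil (100 * ((G : ℝ) + 1) / ε)
    linarith
  have hKε : 100 * ((G : ℝ) + 1) ≤ K * ε := by
    rw [div_le_iff₀ hε] at hKe; exact hKe
  have hK0 : (0 : ℝ) ≤ K := Nat.cast_nonneg K
  have hKG : 100 * ((G : ℝ) + 1) ≤ K := hKε.trans (mul_le_of_le_one_right hK0 hε1)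
  have hk1 : 1 ≤ k := by omega
  have hn1 : 1 ≤ n := by nlinarith
  have hkr : (K : ℝ) ≤ k := by exact_mod_cast hk
  have hk0 : (0 : ℝ) < k := by exact_mod_cast (by omega : 0 < k)
  have hk1r : (1 : ℝ) ≤ k := by exact_mod_cast hk1
  have hn0 : (0 : ℝ) < n := by exact_mod_cast (by omega : 0 < n)
  have hnr : (K : ℝ) * k ≤ n := by exact_mod_cast hn
  obtain ⟨L, Δ, hlam, hexp, hm, hΔ0, hLk, hLdef, hΔdef⟩ := ctx (m := m) hk1 hn1
  obtain ⟨x, hx⟩ : ∃ x : ℝ, x = (n : ℝ) / k := ⟨_, rfl⟩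
  have hxk : (n : ℝ) = x * k := by rw [hx]; field_simp
  have hxK : (K : ℝ) ≤ x := by
    rw [hx, le_div_iff₀ hk0]; exact hnr
  have hx300 : (300 : ℝ) ≤ x := le_trans (by exact_mod_cast hK300) hxK
  have hx0 : 0 < x := by linarith
  obtain ⟨y, hy⟩ : ∃ y : ℝ, y = Real.log k := ⟨_, rfl⟩
  have hy1 : 1 ≤ y := by
    rw [hy, Real.le_log_iff_exp_le hk0]
    have := Real.exp_one_lt_d9
    have : (300 : ℝ) ≤ k := le_trans (by exact_mod_cast hK300) hkr
    linarith
  rw [← hx, ← hy] at ht1 ht2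
  rw [← hx] at hlam
  rw [hlam] at hd3 hu
  have hlam' : (1 + ε) * sav n k m * n = (1 + ε) * (L * x) := by rw [← hlam]; ring
  rw [hlam'] at hd1
  -- the size of L
  have hΔK : (k : ℝ) ^ K ≤ Δ := by
    rw [hΔdef, le_div_iff₀ (by positivity)]
    exact_mod_cast hkm
  have hKL : K * y ≤ L := by
    rw [hLdef, hy, ← Real.log_pow]
    refine Real.log_le_log (by positivity) ?_
    have h1 : (0 : ℝ) ≤ (k : ℝ) ^ K := by positivity
    nlinarith
  have hL30 : 100 * ((G : ℝ) + 1) * y ≤ L := by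
    refine le_trans ?_ hKL
    exact mul_le_mul_of_nonneg_right hKG (by linarith)
  have hLε : 100 * ((G : ℝ) + 1) * y ≤ ε * L := by
    have h1 := mul_le_mul_of_nonneg_right hKε (by linarith : (0 : ℝ) ≤ y)
    have h2 := mul_le_mul_of_nonneg_left hKL hε.le
    have h3 : (K : ℝ) * ε * y = ε * (K * y) := by ring
    linarith
  have hGy : (G : ℝ) ≤ G * y := le_mul_of_one_le_right hG00 hy1
  have hGy0 : 0 ≤ (G : ℝ) * y := by positivity
  have hexpG : 100 * ((G : ℝ) + 1) * y = 100 * (G * y) + 100 * y := by ring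
  have hL1 : 1 ≤ L := by rw [hexpG] at hL30; linarith
  have hLpos : 0 < L := by linarith
  obtain ⟨lam, hlamdef⟩ : ∃ lam : ℝ, lam = L * x := ⟨_, rfl⟩
  rw [← hlamdef] at hu hd1 hd3 hlam
  have hlam0 : 0 < lam := by rw [hlamdef]; positivity
  have hxlam : x ≤ lam := by
    rw [hlamdef]; exact le_mul_of_one_le_left hx0.le hL1
  have hyx : 1 ≤ y * x := one_le_mul_of_one_le_of_one_le hy1 (by linarith)
  have hlamK : 100 * ((G : ℝ) + 1) * (y * x) ≤ lam := by
    rw [hlamdef]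
    have := mul_le_mul_of_nonneg_right hL30 hx0.le
    linarith
  have hGyx : (G : ℝ) ≤ G * (y * x) := le_mul_of_one_le_right hG00 hyx
  have ht0 : (0 : ℝ) < t := by linarith
  have ht : 1 ≤ t := by exact_mod_cast ht0
  have htl : 4 * (t : ℝ) + 1 ≤ lam := by
    have e0 : 100 * ((G : ℝ) + 1) * (y * x) = 100 * (G * (y * x)) + 100 * (y * x) := by ring
    rw [e0] at hlamK
    linarith
  -- factors
  have A1 : (bl n (u + 4 * t + 1) : ℝ) ≤ Real.exp (4 * lam * y + lam) := by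
    apply bl_exp' n _ hk1r
    rw [← hx, ← hy]
    push_cast
    have h1 : ((u : ℝ) + 4 * t + 1) * y ≤ 4 * lam * y :=
      mul_le_mul_of_nonneg_right (by linarith) (by linarith)
    linarith
  have A2 : (n.choose d : ℝ) ≤ Real.exp (3 * lam * y + lam) := by
    refine (znb_ch n d).trans ?_
    apply bl_exp' n _ hk1r
    rw [← hx, ← hy]
    have h1 : (d : ℝ) * y ≤ 3 * lam * y := mul_le_mul_of_nonneg_right (by linarith) (by linarith)
    linarith
  have A3 : (n.choose (12 * t) : ℝ) ≤ Real.exp (12 * t * y + lam) := by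
    refine (znb_ch n _).trans ?_
    apply bl_exp' n _ hk1r
    rw [← hx, ← hy]
    push_cast
    linarith
  have A4 : ((2 * m).choose t : ℝ) ≤ 2 ^ (k * t) * Real.exp (t * L) := by
    apply ch_exp ht
    have h1 : ((2 * m : ℕ) : ℝ) = 2 * (Δ * (2 ^ k * n)) := by
      push_cast; rw [hm]
    have h2 : (n : ℝ) / t ≤ k / G := by
      rw [div_le_div_iff₀ ht0 hG0, hxk]
      have h3 : (G : ℝ) * x ≤ t := by
        refine le_trans ?_ ht1
        have : (G : ℝ) * (1 * x) ≤ G * (y * x) := by gcongr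
        linarith
      have := mul_le_mul_of_nonneg_left h3 hk0.le
      linarith
    have h3 : Real.exp 1 * (2 * (Δ * (2 ^ k * (n : ℝ)))) / t =
        2 ^ k * (2 * Real.exp 1 * (Δ * ((n : ℝ) / t))) := by ring
    rw [h1, h3]
    apply mul_le_mul_of_nonneg_left _ (by positivity)
    have h4 : Δ * ((n : ℝ) / t) ≤ Δ * (k / G) := mul_le_mul_of_nonneg_left h2 hΔ0
    have h5 : 2 * Real.exp 1 * (Δ * (k / G)) ≤ Real.exp L := by
      rw [hexp]
      have h6 : 2 * Real.exp 1 * (Δ * (k / G)) = (2 * Real.exp 1 / G) * (Δ * k) := by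
        field_simp
      have h7 : 2 * Real.exp 1 / G ≤ 1 := by
        rw [div_le_one hG0]
        have := Real.exp_one_lt_d9
        linarith
      rw [h6]
      have h8 : 0 ≤ Δ * k := mul_nonneg hΔ0 hk0.le
      have h9 := mul_le_mul_of_nonneg_right h7 h8
      linarith
    refine le_trans (mul_le_mul_of_nonneg_left h4 (by positivity)) h5
  have hnd : 0 ≤ (n : ℝ) - d + ((12 * t : ℕ) : ℝ) := by
    have : (d : ℝ) ≤ n := by exact_mod_cast (by omega : d ≤ n)
    have h2 : (0 : ℝ) ≤ ((12 * t : ℕ) : ℝ) := Nat.cast_nonneg _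
    linarith
  have A5 := pw_exp (k := k) (t := t) (a := ((12 * t : ℕ) : ℝ)) (d := d) hn0 hnd
  have A5' : Real.exp (-((t : ℝ) * (((d : ℝ) - ((12 * t : ℕ) : ℝ)) * (k / n)))) ≤
      Real.exp (-(t * ((1 + ε) * L - 12 * G * y - 12))) := by
    apply Real.exp_le_exp.2
    apply neg_le_neg
    apply mul_le_mul_of_nonneg_left _ ht0.le
    have h1 : (k : ℝ) / n = 1 / x := by rw [hxk]; field_simp
    rw [h1, mul_one_div, le_div_iff₀ hx0]
    push_cast
    have h4 : (1 + ε) * lam = (1 + ε) * L * x := by rw [hlamdef]; ring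
    have h5 : (12 : ℝ) * t ≤ 12 * G * y * x + 12 * x := by
      have : (12 : ℝ) * (G * (y * x)) = 12 * G * y * x := by ring
      linarith
    linarith
  have A5p : 0 ≤ (((n : ℝ) - d + ((12 * t : ℕ) : ℝ)) / (2 * n)) ^ (k * t) := by positivity
  unfold prb
  generalize hP : (((n : ℝ) - d + ((12 * t : ℕ) : ℝ)) / (2 * n)) ^ (k * t) = P at A5 A5p ⊢
  have A45 : ((2 * m).choose t : ℝ) * P ≤ Real.exp (t * L) *
      Real.exp (-(t * ((1 + ε) * L - 12 * G * y - 12))) := by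
    calc ((2 * m).choose t : ℝ) * P ≤ 2 ^ (k * t) * Real.exp (t * L) * P :=
          mul_le_mul_of_nonneg_right A4 A5p
      _ = Real.exp (t * L) * (P * 2 ^ (k * t)) := by ring
      _ ≤ _ := mul_le_mul_of_nonneg_left (A5.trans A5') (Real.exp_pos _).le
  have e1 : (bl n (u + 4 * t + 1) : ℝ) *
      ((n.choose d : ℝ) * n.choose (12 * t) * (2 * m).choose t * P) =
      ((bl n (u + 4 * t + 1) : ℝ) * (n.choose d : ℝ)) *
      ((n.choose (12 * t) : ℝ) * (((2 * m).choose t : ℝ) * P)) := by ring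
  rw [e1]
  have B1 := mul_le_mul A1 A2 (Nat.cast_nonneg _) (Real.exp_pos _).le
  have B2 := mul_le_mul A3 A45 (mul_nonneg (Nat.cast_nonneg _) A5p) (Real.exp_pos _).le
  have C := mul_le_mul B1 B2 (mul_nonneg (Nat.cast_nonneg _)
    (mul_nonneg (Nat.cast_nonneg _) A5p)) (by positivity)
  refine C.trans ?_
  have e2 : (2 : ℝ) ^ (-(2 ^ 45 * sav n k m * n)) = Real.exp (-(2 ^ 45 * lam) * Real.log 2) := by
    rw [Real.rpow_def_of_pos (by norm_num), mul_assoc (2 ^ 45), hlam, mul_comm]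
  rw [e2]
  simp only [← Real.exp_add]
  apply Real.exp_le_exp.2
  have hl2 : Real.log 2 < 0.6931471808 := Real.log_two_lt_d9
  have h9 : 2 ^ 45 * lam * Real.log 2 ≤ 2 ^ 45 * lam * 0.6931471808 :=
    mul_le_mul_of_nonneg_left hl2.le (by positivity)
  -- the main term
  have m1 : 12 * y + 12 * G * y + 12 ≤ 1 / 4 * (ε * L) := by
    rw [hexpG] at hLε
    have : 12 * (G : ℝ) * y = 12 * (G * y) := by ring
    linarith
  have m2 : (t : ℝ) * (12 * y + 12 * G * y + 12) ≤ t * (1 / 4 * (ε * L)) :=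
    mul_le_mul_of_nonneg_left m1 ht0.le
  have m3 : 2 ^ 46 * (y * lam) ≤ ε * L * t := by
    have h1 : ε * L * (G * (y * x)) ≤ ε * L * t :=
      mul_le_mul_of_nonneg_left ht1 (by positivity)
    have h2 : ε * L * (G * (y * x)) = (ε * G) * (y * lam) := by rw [hlamdef]; ring
    have h3 : 2 ^ 46 * (y * lam) ≤ (ε * G) * (y * lam) :=
      mul_le_mul_of_nonneg_right hG (by positivity)
    linarith
  have m4 : lam ≤ y * lam := le_mul_of_one_le_left hlam0.le hy1
  have m5 : 4 * lam * y + lam + (3 * lam * y + lam) + (12 * t * y + lam + (t * L +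
      -(t * ((1 + ε) * L - 12 * G * y - 12)))) =
      7 * (y * lam) + 3 * lam + t * (12 * y + 12 * G * y + 12) - ε * L * t := by ring
  have m6 : (t : ℝ) * (1 / 4 * (ε * L)) = 1 / 4 * (ε * L * t) := by ring
  have m7 : -(2 ^ 45 * lam) * Real.log 2 = -(2 ^ 45 * lam * Real.log 2) := by ring
  rw [m5, m7]
  rw [m6] at m2
  linarith

end Pool.Agent.H23.SR
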